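import Mathlib

set_option autoImplicit false

/-!
Definitions for ultrafilters on the positive integers: the product, M-divisibility,
multiplicative finite embeddability and the levels `L_n`.
-/

namespace Pool.Agent.Lib.MP_31068f_lc

/-- `A/n = {m : n m ∈ A}`. -/
def quotSet (A : Set ℕ+) (n : ℕ+) : Set ℕ+ := {m | n * m ∈ A}

/-- The product of ultrafilters: `A ∈ F · G` iff `{n : A/n ∈ G} ∈ F`. -/
def uMul (F G : Ultrafilter ℕ+) : Ultrafilter ℕ+ :=
  Ultrafilter.ofComplNotMemIff
    { sets := {A | {n | quotSet A n ∈ G} ∈ F}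
      univ_sets := Filter.univ_mem' fun _ => Filter.univ_mem
      sets_of_superset := fun hA hAB =>
        Filter.mem_of_superset hA fun _ hn => Filter.mem_of_superset hn fun _ hm => hAB hm
      inter_sets := fun hA hB =>
        Filter.mem_of_superset (Filter.inter_mem hA hB) fun _ hn => Filter.inter_mem hn.1 hn.2 }
    (fun A => by
      change {n | quotSet Aᶜ n ∈ G} ∉ F ↔ {n | quotSet A n ∈ G} ∈ F
      have h : {n | quotSet Aᶜ n ∈ G} = {n | quotSet A n ∈ G}ᶜ := by
        ext n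
        exact Ultrafilter.compl_mem_iff_notMem (s := quotSet A n)
      rw [h]
      exact Ultrafilter.compl_notMem_iff)

/-- `F ∣_M G` iff `G = H₁ · F · H₂` for some ultrafilters `H₁, H₂`. -/
def MDvd (F G : Ultrafilter ℕ+) : Prop := ∃ H₁ H₂ : Ultrafilter ℕ+, G = uMul (uMul H₁ F) H₂

/-- `A ≤_fe B` iff every finite `S ⊆ A` has a dilate `k S ⊆ B`. -/
def FinEmb (A B : Set ℕ+) : Prop :=
  ∀ S : Set ℕ+, S.Finite → S ⊆ A → ∃ k : ℕ+, ∀ a ∈ S, k * a ∈ B

/-- `F ≤_fe G` iff every `B ∈ G` has some `A ∈ F` with `A ≤_fe B`. -/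
def UFinEmb (F G : Ultrafilter ℕ+) : Prop := ∀ B ∈ G, ∃ A ∈ F, FinEmb A B

/-- `L_n`: the positive integers with exactly `n` prime factors, counted with multiplicity. -/
def level (n : ℕ) : Set ℕ+ := {m | (m : ℕ).primeFactorsList.length = n}

end Pool.Agent.Lib.MP_31068f_lc
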