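import Pool.Agent.Lib.MP_31068f_lc.Proof

set_option autoImplicit false

namespace Pool.Agent.Lib.MP_31068f_lc

open Filter

/-- the largest prime factor -/
def lp (x : ℕ+) : ℕ := (x : ℕ).primeFactors.sup id

theorem lp_mul (a b : ℕ+) : lp (a * b) = max (lp a) (lp b) := by
  unfold lp
  rw [PNat.mul_coe, Nat.primeFactors_mul a.ne_zero b.ne_zero, Finset.sup_union]

theorem lp_le (a : ℕ+) : lp a ≤ (a : ℕ) :=
  Finset.sup_le fun _ hp => Nat.le_of_mem_primeFactors hp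

theorem le_lp_pow (a : ℕ+) : (a : ℕ) ≤ lp a ^ om a := by
  have h := List.prod_le_pow_card (a : ℕ).primeFactorsList (lp a) fun p hp =>
    Finset.le_sup (f := id) (Nat.mem_primeFactors_iff_mem_primeFactorsList.2 hp)
  rwa [Nat.prod_primeFactorsList a.ne_zero] at h

theorem lp_mul_of_le {a b : ℕ+} (h : (a : ℕ) ≤ lp b) : lp (a * b) = lp b := by
  rw [lp_mul]
  exact max_eq_right ((lp_le a).trans h)

theorem lp_prime_pow {q : ℕ+} (hq : (q : ℕ).Prime) {r : ℕ} (hr : r ≠ 0) : lp (q ^ r) = q := by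
  unfold lp
  rw [PNat.pow_coe, Nat.primeFactors_prime_pow hr hq, Finset.sup_singleton]
  rfl

theorem om_prime_pow {q : ℕ+} (hq : (q : ℕ).Prime) (r : ℕ) : om (q ^ r) = r := by
  induction r with
  | zero => rw [pow_zero, om_one]
  | succ r ih => rw [pow_succ, om_mul, ih, om_eq_one.2 hq]

/-- a nonprincipal ultrafilter contains no bounded set -/
theorem ev_ge_of_cofinite {X : Ultrafilter ℕ+} (hX : (X : Filter ℕ+) ≤ cofinite) (k : ℕ) :
    ∀ᶠ a : ℕ+ in (X : Filter ℕ+), k ≤ (a : ℕ) := by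
  refine hX ?_
  have hfin : {a : ℕ+ | (a : ℕ) < k}.Finite :=
    Set.Finite.preimage (f := fun a : ℕ+ => (a : ℕ)) (PNat.coe_injective.injOn) (Set.finite_Iio k)
  refine mem_cofinite.2 (hfin.subset fun a ha => ?_)
  exact not_le.1 (show ¬ k ≤ (a : ℕ) from ha)

/-- on a bounded level the largest prime factor of a nonprincipal ultrafilter is unbounded -/
theorem ev_lp_ge {X : Ultrafilter ℕ+} (hX : (X : Filter ℕ+) ≤ cofinite) {r : ℕ}
    (hr : ∀ᶠ a : ℕ+ in (X : Filter ℕ+), om a ≤ r) (k : ℕ) :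
    ∀ᶠ a : ℕ+ in (X : Filter ℕ+), k ≤ lp a := by
  filter_upwards [hr, ev_ge_of_cofinite hX ((k + 1) ^ r + 1)] with a ha hk
  by_contra hlt
  have h1 : lp a ^ om a ≤ (k + 1) ^ om a := Nat.pow_le_pow_left (by omega) _
  have h2 : (k + 1) ^ om a ≤ (k + 1) ^ r := Nat.pow_le_pow_right (by omega) ha
  have h3 := le_lp_pow a
  omega

/-- the parity class of a prime -/
def par (q : ℕ) : ℕ := Nat.count Nat.Prime q % 2

/-- the colour of a prime inside its parity class -/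
def hue (q : ℕ) : ℕ := (Nat.unpair (Nat.count Nat.Prime q / 2)).1

/-- the `i`-th prime of colour `j` in the parity class `e` -/
noncomputable def qq (e j i : ℕ) : ℕ+ := pr (2 * Nat.pair j i + e)

theorem count_pr (i : ℕ) : Nat.count Nat.Prime ((pr i : ℕ+) : ℕ) = i :=
  Nat.count_nth_of_infinite Nat.infinite_setOfPred_prime i

theorem par_qq {e : ℕ} (he : e < 2) (j i : ℕ) : par (qq e j i) = e := by
  unfold par qq
  rw [count_pr]
  omega

theorem hue_qq {e : ℕ} (he : e < 2) (j i : ℕ) : hue (qq e j i) = j := by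
  unfold hue qq
  rw [count_pr, show (2 * Nat.pair j i + e) / 2 = Nat.pair j i by omega, Nat.unpair_pair]

theorem le_qq (e j i : ℕ) : i ≤ ((qq e j i : ℕ+) : ℕ) := by
  have h1 := Nat.right_le_pair j i
  have h2 := le_pr (2 * Nat.pair j i + e)
  unfold qq
  omega

noncomputable def W2 (e r j : ℕ) : Ultrafilter ℕ+ := (hyperfilter ℕ).map fun i => qq e j i ^ r

noncomputable def G2 (F : Ultrafilter ℕ+) (e r : ℕ) : Ultrafilter ℕ+ :=
  (hyperfilter ℕ).bind fun j => uMul F (W2 e r j)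

theorem eventually_G2 {F : Ultrafilter ℕ+} {e r : ℕ} {p : ℕ+ → Prop} :
    (∀ᶠ x : ℕ+ in (G2 F e r : Filter ℕ+), p x) ↔ ∀ᶠ j in (hyperfilter ℕ : Filter ℕ),
      ∀ᶠ a : ℕ+ in (F : Filter ℕ+), ∀ᶠ i in (hyperfilter ℕ : Filter ℕ),
        p (a * qq e j i ^ r) := Iff.rfl

theorem lp_qq {r : ℕ} (hr : r ≠ 0) (e j : ℕ) (a : ℕ+) :
    ∀ᶠ i in (hyperfilter ℕ : Filter ℕ), lp (a * qq e j i ^ r) = qq e j i := by
  filter_upwards [ev_ge a] with i hi
  have h : lp (qq e j i ^ r) = qq e j i := lp_prime_pow (pr_prime _) hr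
  rw [lp_mul_of_le (by rw [h]; exact hi.trans (le_qq e j i)), h]

theorem G2_level {F : Ultrafilter ℕ+} {m : ℕ} (hF : ∀ᶠ a : ℕ+ in (F : Filter ℕ+), om a = m)
    (e r : ℕ) : ∀ᶠ x : ℕ+ in (G2 F e r : Filter ℕ+), om x = m + r := by
  rw [eventually_G2]
  refine Eventually.of_forall fun j => hF.mono fun a ha => Eventually.of_forall fun i => ?_
  rw [om_mul, ha, qq, om_prime_pow (pr_prime _)]

theorem G2_small {F : Ultrafilter ℕ+} (hF : (F : Filter ℕ+) ≤ cofinite) {e r : ℕ} (he : e < 2)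
    (hr : r ≠ 0) : ∀ᶠ x : ℕ+ in (G2 F e r : Filter ℕ+), hue (lp x) * lp x ^ r < (x : ℕ) := by
  rw [eventually_G2]
  refine Eventually.of_forall fun j => ?_
  filter_upwards [ev_ge_of_cofinite hF (j + 1)] with a ha
  filter_upwards [lp_qq hr e j a] with i hi
  rw [hi, hue_qq he, PNat.mul_coe, PNat.pow_coe]
  exact Nat.mul_lt_mul_of_pos_right (by omega) (pow_pos (qq e j i).pos r)

theorem G2_hue (F : Ultrafilter ℕ+) {e r : ℕ} (he : e < 2) (hr : r ≠ 0) (k : ℕ) :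
    ∀ᶠ x : ℕ+ in (G2 F e r : Filter ℕ+), hue (lp x) ≠ k := by
  rw [eventually_G2]
  filter_upwards [ev_ge (k + 1)] with j hj
  refine Eventually.of_forall fun a => ?_
  filter_upwards [lp_qq hr e j a] with i hi
  rw [hi, hue_qq he]
  omega

theorem G2_par (F : Ultrafilter ℕ+) {e r : ℕ} (he : e < 2) (hr : r ≠ 0) :
    ∀ᶠ x : ℕ+ in (G2 F e r : Filter ℕ+), par (lp x) = e := by
  rw [eventually_G2]
  refine Eventually.of_forall fun j => Eventually.of_forall fun a => ?_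
  filter_upwards [lp_qq hr e j a] with i hi
  rw [hi, par_qq he]

theorem G2_finEmb (F : Ultrafilter ℕ+) (e r : ℕ) : UFinEmb F (G2 F e r) := by
  intro B hB
  have hB' : ∀ᶠ j in (hyperfilter ℕ : Filter ℕ), ∀ᶠ a : ℕ+ in (F : Filter ℕ+),
      ∀ᶠ i in (hyperfilter ℕ : Filter ℕ), a * qq e j i ^ r ∈ B := eventually_G2.1 hB
  obtain ⟨j, hj⟩ := hB'.exists
  refine ⟨_, hj, fun S hS hSA => ?_⟩
  have : ∀ᶠ i in (hyperfilter ℕ : Filter ℕ), ∀ a ∈ S, a * qq e j i ^ r ∈ B :=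
    (eventually_all_finite hS).2 fun a ha => hSA ha
  obtain ⟨i, hi⟩ := this.exists
  exact ⟨qq e j i ^ r, fun a ha => by rw [mul_comm]; exact hi a ha⟩

theorem G2_not_MDvd {F : Ultrafilter ℕ+} {m : ℕ} (hm : ∀ᶠ a : ℕ+ in (F : Filter ℕ+), om a = m)
    (hF : (F : Filter ℕ+) ≤ cofinite) {e r : ℕ} (he : e < 2) (hr : r ≠ 0)
    (hpar : ∀ᶠ a : ℕ+ in (F : Filter ℕ+), par (lp a) ≠ e) : ¬ MDvd F (G2 F e r) := by
  rintro ⟨H₁, H₂, hG⟩
  have key : ∀ p : ℕ+ → Prop, (∀ᶠ x : ℕ+ in (G2 F e r : Filter ℕ+), p x) →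
      ∀ᶠ a : ℕ+ in (H₁ : Filter ℕ+), ∀ᶠ f : ℕ+ in (F : Filter ℕ+),
        ∀ᶠ b : ℕ+ in (H₂ : Filter ℕ+), p (a * f * b) := by
    intro p hp
    rw [hG] at hp
    exact hp
  rcases H₂.le_cofinite_or_eq_pure with h2 | ⟨b, rfl⟩
  · have hom : ∀ᶠ b : ℕ+ in (H₂ : Filter ℕ+), om b ≤ r := by
      obtain ⟨a, ha⟩ := (key _ (G2_level hm e r)).exists
      obtain ⟨f, hf, hfm⟩ := (ha.and hm).exists
      filter_upwards [hf] with b hb
      rw [om_mul, om_mul, hfm] at hb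
      omega
    have hne : ∀ k : ℕ, ∀ᶠ b : ℕ+ in (H₂ : Filter ℕ+), hue (lp b) ≠ k := by
      intro k
      obtain ⟨a, ha⟩ := (key _ (G2_hue F he hr k)).exists
      obtain ⟨f, hf⟩ := ha.exists
      filter_upwards [hf, ev_lp_ge h2 hom ((a * f : ℕ+) : ℕ)] with b hb hge
      rwa [lp_mul_of_le hge] at hb
    obtain ⟨a, ha⟩ := (key _ (G2_small hF he hr)).exists
    obtain ⟨f, hf⟩ := ha.exists
    have hlt : ∀ᶠ b : ℕ+ in (H₂ : Filter ℕ+), hue (lp b) < ((a * f : ℕ+) : ℕ) := by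
      filter_upwards [hf, hom, ev_lp_ge h2 hom ((a * f : ℕ+) : ℕ)] with b hb hbr hge
      rw [lp_mul_of_le hge, PNat.mul_coe (a * f) b] at hb
      have h1 : (b : ℕ) ≤ lp b ^ r :=
        (le_lp_pow b).trans (Nat.pow_le_pow_right ((a * f).pos.trans_le hge) hbr)
      exact Nat.lt_of_mul_lt_mul_right (hb.trans_le (Nat.mul_le_mul_left _ h1))
    have hall : ∀ᶠ b : ℕ+ in (H₂ : Filter ℕ+),
        ∀ k ∈ Finset.range ((a * f : ℕ+) : ℕ), hue (lp b) ≠ k :=
      (eventually_all_finset _).2 fun k _ => hne k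
    obtain ⟨b, hb1, hb2⟩ := (hlt.and hall).exists
    exact hb2 _ (Finset.mem_range.2 hb1) rfl
  · obtain ⟨a, ha⟩ := (key _ (G2_par F he hr)).exists
    obtain ⟨f, hf, hge, hne⟩ := (ha.and
      ((ev_lp_ge hF (hm.mono fun _ h => h.le) ((a * b : ℕ+) : ℕ)).and hpar)).exists
    have hf' : par (lp (a * f * b)) = e := hf
    rw [mul_right_comm, lp_mul_of_le hge] at hf'
    exact hne hf'

/-- every nonprincipal ultrafilter on a level has a counterexample on every higher level -/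
theorem exists_counter {F : Ultrafilter ℕ+} {m n : ℕ} (hm : level m ∈ F)
    (hF : (F : Filter ℕ+) ≤ cofinite) (hmn : m < n) :
    ∃ G : Ultrafilter ℕ+, level n ∈ G ∧ UFinEmb F G ∧ ¬ MDvd F G := by
  have hm' : ∀ᶠ a : ℕ+ in (F : Filter ℕ+), om a = m := hm
  obtain ⟨e, he, hpar⟩ : ∃ e < 2, ∀ᶠ a : ℕ+ in (F : Filter ℕ+), par (lp a) ≠ e := by
    rcases F.em (fun a => par (lp a) = 0) with h | h
    · exact ⟨1, by omega, h.mono fun a ha => by omega⟩
    · exact ⟨0, by omega, h⟩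
  refine ⟨G2 F e (n - m), ?_, G2_finEmb F e _, G2_not_MDvd hm' hF he (by omega) hpar⟩
  have h := G2_level hm' e (n - m)
  rw [show m + (n - m) = n by omega] at h
  exact h

theorem MDvd_of_pure (a : ℕ+) {G : Ultrafilter ℕ+} (h : UFinEmb (pure a) G) :
    MDvd (pure a) G := by
  have hdvd : ∀ᶠ x : ℕ+ in (G : Filter ℕ+), a ∣ x := by
    rcases G.em (fun x => a ∣ x) with h1 | h1
    · exact h1
    · obtain ⟨A, hA, hAB⟩ := h _ h1
      obtain ⟨k, hk⟩ := hAB {a} (Set.finite_singleton a) (Set.singleton_subset_iff.2 hA)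
      exact absurd (Dvd.intro_left k rfl) (hk a rfl)
  refine ⟨pure 1, G.map fun x => PNat.divExact x a, Ultrafilter.ext fun A => ?_⟩
  change (∀ᶠ x : ℕ+ in (G : Filter ℕ+), x ∈ A) ↔
    ∀ᶠ x : ℕ+ in (G : Filter ℕ+), 1 * a * PNat.divExact x a ∈ A
  refine eventually_congr (hdvd.mono fun x hx => ?_)
  rw [one_mul, PNat.mul_div_exact hx]

theorem MDvd_refl (F : Ultrafilter ℕ+) : MDvd F F := by
  refine ⟨pure 1, pure 1, Ultrafilter.ext fun A => ?_⟩
  change (∀ᶠ x : ℕ+ in (F : Filter ℕ+), x ∈ A) ↔ ∀ᶠ x : ℕ+ in (F : Filter ℕ+), 1 * x * 1 ∈ A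
  simp only [one_mul, mul_one]

theorem eq_of_le_level {F G : Ultrafilter ℕ+} {m n : ℕ} (hm : level m ∈ F) (hn : level n ∈ G)
    (hnm : n ≤ m) (h : UFinEmb F G) : G = F := by
  refine (Ultrafilter.eq_of_le fun B hB => ?_).symm
  obtain ⟨A, hA, hAB⟩ := h _ (inter_mem hB hn)
  filter_upwards [hA, hm] with a ha ham
  obtain ⟨k, hk⟩ := hAB {a} (Set.finite_singleton a) (Set.singleton_subset_iff.2 ha)
  obtain ⟨h1, h2⟩ := hk a rfl
  have h3 : om (k * a) = n := h2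
  have h4 : om a = m := ham
  rw [om_mul] at h3
  rw [om_eq_zero (a := k) (by omega), one_mul] at h1
  exact h1

theorem classification (m n : ℕ) (F : Ultrafilter ℕ+) (hm : level m ∈ F) :
    (∀ G : Ultrafilter ℕ+, level n ∈ G → UFinEmb F G → MDvd F G) ↔
      ((∃ a : ℕ+, F = pure a) ∨ n ≤ m) := by
  constructor
  · intro h
    by_contra hc
    rw [not_or, not_le] at hc
    obtain ⟨G, hG, h1, h2⟩ :=
      exists_counter hm (F.le_cofinite_or_eq_pure.resolve_right hc.1) hc.2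
    exact h2 (h G hG h1)
  · rintro (⟨a, rfl⟩ | hnm) G hG h
    · exact MDvd_of_pure a h
    · rw [eq_of_le_level hm hG hnm h]
      exact MDvd_refl F

end Pool.Agent.Lib.MP_31068f_lc
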