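import Pool.Agent.Lib.MP_31068f_lc.Defs

set_option autoImplicit false

namespace Pool.Agent.Lib.MP_31068f_lc

open Filter

theorem mem_uMul {F G : Ultrafilter ℕ+} {A : Set ℕ+} :
    A ∈ uMul F G ↔ {n | quotSet A n ∈ G} ∈ F := Iff.rfl

theorem eventually_uMul {F G : Ultrafilter ℕ+} {p : ℕ+ → Prop} :
    (∀ᶠ m : ℕ+ in (uMul F G : Filter ℕ+), p m) ↔
      ∀ᶠ a : ℕ+ in (F : Filter ℕ+), ∀ᶠ b : ℕ+ in (G : Filter ℕ+), p (a * b) := Iff.rfl

/-- number of prime factors -/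
def om (m : ℕ+) : ℕ := (m : ℕ).primeFactorsList.length

theorem om_mul (a b : ℕ+) : om (a * b) = om a + om b := by
  unfold om
  rw [PNat.mul_coe, (Nat.perm_primeFactorsList_mul a.ne_zero b.ne_zero).length_eq,
    List.length_append]

theorem om_eq_zero {a : ℕ+} (h : om a = 0) : a = 1 := by
  unfold om at h
  rw [List.length_eq_zero_iff, Nat.primeFactorsList_eq_nil] at h
  rcases h with h | h
  · exact absurd h a.ne_zero
  · exact PNat.eq h

theorem om_one : om 1 = 0 := by simp [om]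

theorem om_eq_one {a : ℕ+} : om a = 1 ↔ (a : ℕ).Prime := by
  unfold om
  rw [← ArithmeticFunction.cardFactors_apply, ArithmeticFunction.cardFactors_eq_one_iff_prime]

theorem minFac_mul {p q : ℕ} (hp : p.Prime) (hq : q.Prime) (hpq : p ≤ q) :
    (p * q).minFac = p := by
  have h1 : p * q ≠ 1 := by
    intro h
    exact hp.one_lt.ne' (Nat.eq_one_of_mul_eq_one_right h)
  have hle : (p * q).minFac ≤ p := Nat.minFac_le_of_dvd hp.two_le (Dvd.intro _ rfl)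
  have hpr := Nat.minFac_prime h1
  rcases (Nat.Prime.dvd_mul hpr).1 (Nat.minFac_dvd (p * q)) with h | h
  · exact (Nat.prime_dvd_prime_iff_eq hpr hp).1 h
  · have := (Nat.prime_dvd_prime_iff_eq hpr hq).1 h
    omega

/-- the colour of a prime -/
def col (q : ℕ) : ℕ := (Nat.unpair (Nat.count Nat.Prime q)).1

/-- the colour of the larger prime factor of a product of two primes -/
def bigCol (m : ℕ+) : ℕ := col ((m : ℕ) / (m : ℕ).minFac)

theorem bigCol_mul {p q : ℕ+} (hp : (p : ℕ).Prime) (hq : (q : ℕ).Prime) (hpq : (p : ℕ) ≤ q) :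
    bigCol (p * q) = col q := by
  unfold bigCol
  rw [PNat.mul_coe, minFac_mul hp hq hpq, Nat.mul_div_cancel_left _ hp.pos]

/-- the `i`-th prime -/
noncomputable def pr (i : ℕ) : ℕ+ := ⟨Nat.nth Nat.Prime i, (Nat.prime_nth_prime i).pos⟩

theorem pr_prime (i : ℕ) : ((pr i : ℕ+) : ℕ).Prime := Nat.prime_nth_prime i

theorem le_pr (i : ℕ) : i ≤ ((pr i : ℕ+) : ℕ) := by
  have := Nat.add_two_le_nth_prime i
  change i ≤ Nat.nth Nat.Prime i
  omega

theorem col_pr (n j : ℕ) : col (pr (Nat.pair n j)) = n := by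
  unfold col
  change (Nat.unpair (Nat.count Nat.Prime (Nat.nth Nat.Prime (Nat.pair n j)))).1 = n
  rw [Nat.count_nth_of_infinite Nat.infinite_setOfPred_prime, Nat.unpair_pair]

theorem ev_ge (k : ℕ) : ∀ᶠ i in (hyperfilter ℕ : Filter ℕ), k ≤ i :=
  Nat.hyperfilter_le_atTop (eventually_ge_atTop k)

noncomputable def FF : Ultrafilter ℕ+ := (hyperfilter ℕ).map pr

noncomputable def WW (n : ℕ) : Ultrafilter ℕ+ := (hyperfilter ℕ).map fun j => pr (Nat.pair n j)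

noncomputable def GG : Ultrafilter ℕ+ := (hyperfilter ℕ).bind fun n => uMul FF (WW n)

theorem eventually_GG {p : ℕ+ → Prop} :
    (∀ᶠ m : ℕ+ in (GG : Filter ℕ+), p m) ↔ ∀ᶠ n in (hyperfilter ℕ : Filter ℕ),
      ∀ᶠ a : ℕ+ in (FF : Filter ℕ+), ∀ᶠ b : ℕ+ in (WW n : Filter ℕ+), p (a * b) := Iff.rfl

theorem FF_prime : ∀ᶠ a : ℕ+ in (FF : Filter ℕ+), (a : ℕ).Prime :=
  (Eventually.of_forall pr_prime : ∀ᶠ i in (hyperfilter ℕ : Filter ℕ), ((pr i : ℕ+) : ℕ).Prime)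

theorem FF_ge (k : ℕ) : ∀ᶠ a : ℕ+ in (FF : Filter ℕ+), k ≤ (a : ℕ) :=
  ((ev_ge k).mono fun i hi => hi.trans (le_pr i) :
    ∀ᶠ i in (hyperfilter ℕ : Filter ℕ), k ≤ ((pr i : ℕ+) : ℕ))

theorem WW_prime (n : ℕ) : ∀ᶠ a : ℕ+ in (WW n : Filter ℕ+), (a : ℕ).Prime :=
  (Eventually.of_forall fun _ => pr_prime _ :
    ∀ᶠ j in (hyperfilter ℕ : Filter ℕ), ((pr (Nat.pair n j) : ℕ+) : ℕ).Prime)

theorem WW_ge (n k : ℕ) : ∀ᶠ a : ℕ+ in (WW n : Filter ℕ+), k ≤ (a : ℕ) :=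
  ((ev_ge k).mono fun j hj => hj.trans ((Nat.right_le_pair n j).trans (le_pr _)) :
    ∀ᶠ j in (hyperfilter ℕ : Filter ℕ), k ≤ ((pr (Nat.pair n j) : ℕ+) : ℕ))

theorem WW_col (n : ℕ) : ∀ᶠ a : ℕ+ in (WW n : Filter ℕ+), col (a : ℕ) = n :=
  (Eventually.of_forall fun j => col_pr n j :
    ∀ᶠ j in (hyperfilter ℕ : Filter ℕ), col ((pr (Nat.pair n j) : ℕ+) : ℕ) = n)

theorem GG_level : ∀ᶠ m : ℕ+ in (GG : Filter ℕ+), om m = 2 := by
  rw [eventually_GG]
  refine Eventually.of_forall fun n => FF_prime.mono fun a ha => (WW_prime n).mono fun b hb => ?_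
  rw [om_mul, om_eq_one.2 ha, om_eq_one.2 hb]

theorem GG_small : ∀ᶠ m : ℕ+ in (GG : Filter ℕ+), bigCol m < (m : ℕ).minFac := by
  rw [eventually_GG]
  refine Eventually.of_forall fun n => ?_
  filter_upwards [FF_prime, FF_ge (n + 1)] with a ha han
  filter_upwards [WW_prime n, WW_ge n a, WW_col n] with b hb hab hbn
  rw [bigCol_mul ha hb hab, PNat.mul_coe, minFac_mul ha hb hab, hbn]
  omega

theorem GG_col_ne (k : ℕ) : ∀ᶠ m : ℕ+ in (GG : Filter ℕ+), bigCol m ≠ k := by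
  rw [eventually_GG]
  filter_upwards [ev_ge (k + 1)] with n hn
  filter_upwards [FF_prime] with a ha
  filter_upwards [WW_prime n, WW_ge n a, WW_col n] with b hb hab hbn
  rw [bigCol_mul ha hb hab, hbn]
  omega

theorem GG_minFac (k : ℕ) : ∀ᶠ m : ℕ+ in (GG : Filter ℕ+), k ≤ (m : ℕ).minFac := by
  rw [eventually_GG]
  refine Eventually.of_forall fun n => ?_
  filter_upwards [FF_prime, FF_ge k] with a ha hak
  filter_upwards [WW_prime n, WW_ge n a] with b hb hab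
  rw [PNat.mul_coe, minFac_mul ha hb hab]
  exact hak

theorem FF_finEmb : UFinEmb FF GG := by
  intro B hB
  have hB' : ∀ᶠ n in (hyperfilter ℕ : Filter ℕ),
      ∀ᶠ a : ℕ+ in (FF : Filter ℕ+), ∀ᶠ b : ℕ+ in (WW n : Filter ℕ+), a * b ∈ B := eventually_GG.1 hB
  obtain ⟨n, hn⟩ := hB'.exists
  refine ⟨_, hn, fun S hS hSA => ?_⟩
  have : ∀ᶠ b : ℕ+ in (WW n : Filter ℕ+), ∀ a ∈ S, a * b ∈ B :=
    (eventually_all_finite hS).2 fun a ha => hSA ha
  obtain ⟨b, hb⟩ := this.exists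
  exact ⟨b, fun a ha => by rw [mul_comm]; exact hb a ha⟩

/-- `GG` is not a product of two ultrafilters on the primes. -/
theorem GG_ne_mul (X Y : Ultrafilter ℕ+) (hX : ∀ᶠ a : ℕ+ in (X : Filter ℕ+), (a : ℕ).Prime)
    (hY : ∀ᶠ b : ℕ+ in (Y : Filter ℕ+), (b : ℕ).Prime)
    (h : ∀ p : ℕ+ → Prop, (∀ᶠ m : ℕ+ in (GG : Filter ℕ+), p m) →
      ∀ᶠ a : ℕ+ in (X : Filter ℕ+), ∀ᶠ b : ℕ+ in (Y : Filter ℕ+), p (a * b)) : False := by
  have hYge : ∀ k : ℕ, ∀ᶠ b : ℕ+ in (Y : Filter ℕ+), k ≤ (b : ℕ) := by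
    intro k
    obtain ⟨a, ha⟩ := (h _ (GG_minFac k)).exists
    filter_upwards [ha, hY] with b hb hbp
    refine hb.trans (Nat.minFac_le_of_dvd hbp.two_le ?_)
    rw [PNat.mul_coe]
    exact Dvd.intro_left _ rfl
  obtain ⟨a, ha, hap⟩ := ((h _ GG_small).and hX).exists
  have hlt : ∀ᶠ b : ℕ+ in (Y : Filter ℕ+), col (b : ℕ) < (a : ℕ) := by
    filter_upwards [ha, hY, hYge a] with b hb hbp hab
    rwa [bigCol_mul hap hbp hab, PNat.mul_coe, minFac_mul hap hbp hab] at hb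
  have hne : ∀ k : ℕ, ∀ᶠ b : ℕ+ in (Y : Filter ℕ+), col (b : ℕ) ≠ k := by
    intro k
    obtain ⟨a', ha', hap'⟩ := ((h _ (GG_col_ne k)).and hX).exists
    filter_upwards [ha', hY, hYge a'] with b hb hbp hab
    rwa [bigCol_mul hap' hbp hab] at hb
  have hall : ∀ᶠ b : ℕ+ in (Y : Filter ℕ+), ∀ k ∈ Finset.range (a : ℕ), col (b : ℕ) ≠ k :=
    (eventually_all_finset _).2 fun k _ => hne k
  obtain ⟨b, hb1, hb2⟩ := (hlt.and hall).exists
  exact hb2 _ (Finset.mem_range.2 hb1) rfl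

theorem not_MDvd : ¬ MDvd FF GG := by
  rintro ⟨H₁, H₂, hG⟩
  have key : ∀ p : ℕ+ → Prop, (∀ᶠ m : ℕ+ in (GG : Filter ℕ+), p m) →
      ∀ᶠ a : ℕ+ in (H₁ : Filter ℕ+), ∀ᶠ q : ℕ+ in (FF : Filter ℕ+), ∀ᶠ b : ℕ+ in (H₂ : Filter ℕ+),
        p (a * q * b) := by
    intro p hp
    rw [hG] at hp
    exact hp
  have hom : ∀ᶠ a : ℕ+ in (H₁ : Filter ℕ+), ∀ᶠ b : ℕ+ in (H₂ : Filter ℕ+), om a + om b = 1 := by
    filter_upwards [key _ GG_level] with a ha
    obtain ⟨q, hq, hqp⟩ := (ha.and FF_prime).exists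
    filter_upwards [hq] with b hb
    rw [om_mul, om_mul, om_eq_one.2 hqp] at hb
    omega
  rcases H₁.em (fun a => a = 1) with h1 | h1
  · refine GG_ne_mul FF H₂ FF_prime ?_ fun p hp => ?_
    · obtain ⟨a, ha, rfl⟩ := (hom.and h1).exists
      filter_upwards [ha] with b hb
      rw [om_one, zero_add] at hb
      exact om_eq_one.1 hb
    · obtain ⟨a, ha, rfl⟩ := ((key p hp).and h1).exists
      simpa only [one_mul] using ha
  · have h2 : ∀ᶠ b : ℕ+ in (H₂ : Filter ℕ+), b = 1 := by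
      obtain ⟨a, ha, ha1⟩ := (hom.and h1).exists
      filter_upwards [ha] with b hb
      have : om a ≠ 0 := fun h => ha1 (om_eq_zero h)
      exact om_eq_zero (by omega)
    refine GG_ne_mul H₁ FF ?_ FF_prime fun p hp => ?_
    · filter_upwards [hom] with a ha
      obtain ⟨b, hb, rfl⟩ := (ha.and h2).exists
      rw [om_one, add_zero] at hb
      exact om_eq_one.1 hb
    · filter_upwards [key p hp] with a ha
      filter_upwards [ha] with q hq
      obtain ⟨b, hb, rfl⟩ := (hq.and h2).exists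
      simpa only [mul_one] using hb

end Pool.Agent.Lib.MP_31068f_lc
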